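import Pool.Agent.N557.QW.Stm

/-!
# The function `fa a = 2 a (1 + a²)⁻¹` of self-adjoint operators
-/

set_option autoImplicit false

namespace Pool.Agent.N896.QWP

open Pool.Agent.N557.QW

section

variable {H : Type} [NormedAddCommGroup H] [InnerProductSpace ℂ H] [CompleteSpace H]

lemma cont_inv : Continuous fun t : ℝ => (1 + t * t)⁻¹ := by
  apply Continuous.inv₀ (by fun_prop)
  intro t
  nlinarith [mul_self_nonneg t]

lemma cfc_one_add (a : H →L[ℂ] H) (ha : IsSelfAdjoint a) :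
    cfc (fun t : ℝ => 1 + t * t) a = 1 + a * a := by
  rw [cfc_add a (fun _ : ℝ => (1 : ℝ)) (fun t : ℝ => t * t), cfc_const_one ℝ a,
    cfc_mul (fun t : ℝ => t) (fun t : ℝ => t) a, cfc_id' ℝ a]

lemma mul_inv1 (a : H →L[ℂ] H) (ha : IsSelfAdjoint a) :
    (1 + a * a) * cfc (fun t : ℝ => (1 + t * t)⁻¹) a = 1 := by
  rw [← cfc_one_add a ha, ← cfc_mul _ _ a (by fun_prop) cont_inv.continuousOn]
  rw [← cfc_const_one ℝ a]
  apply cfc_congr
  intro t _
  simp only
  apply mul_inv_cancel₀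
  nlinarith [mul_self_nonneg t]

lemma mul_inv2 (a : H →L[ℂ] H) (ha : IsSelfAdjoint a) :
    cfc (fun t : ℝ => (1 + t * t)⁻¹) a * (1 + a * a) = 1 := by
  rw [← cfc_one_add a ha, ← cfc_mul _ _ a cont_inv.continuousOn (by fun_prop)]
  rw [← cfc_const_one ℝ a]
  apply cfc_congr
  intro t _
  simp only
  apply inv_mul_cancel₀
  nlinarith [mul_self_nonneg t]

lemma isUnit1 (a : H →L[ℂ] H) (ha : IsSelfAdjoint a) : IsUnit (1 + a * a) :=
  ⟨⟨1 + a * a, _, mul_inv1 a ha, mul_inv2 a ha⟩, rfl⟩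

lemma inverse_eq (a : H →L[ℂ] H) (ha : IsSelfAdjoint a) :
    Ring.inverse (1 + a * a) = cfc (fun t : ℝ => (1 + t * t)⁻¹) a :=
  Ring.inverse_unit ⟨1 + a * a, _, mul_inv1 a ha, mul_inv2 a ha⟩

lemma norm_inverse (a : H →L[ℂ] H) (ha : IsSelfAdjoint a) :
    ‖Ring.inverse (1 + a * a)‖ ≤ 1 := by
  rw [inverse_eq a ha]
  apply norm_cfc_le zero_le_one
  intro t _
  have h : 0 ≤ t * t := mul_self_nonneg t
  rw [Real.norm_eq_abs, abs_of_nonneg (inv_nonneg.2 (by linarith))]
  apply inv_le_one_of_one_le₀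
  linarith

/-- the scalar function -/
noncomputable def ff (t : ℝ) : ℝ := t * (1 + t * t)⁻¹ + t * (1 + t * t)⁻¹

lemma cont_ff : Continuous ff := (continuous_id.mul cont_inv).add (continuous_id.mul cont_inv)

lemma fa_eq (a : H →L[ℂ] H) (ha : IsSelfAdjoint a) : fa a = cfc ff a := by
  have c1 : ContinuousOn (fun t : ℝ => t * (1 + t * t)⁻¹) (spectrum ℝ a) :=
    (continuous_id.mul cont_inv).continuousOn
  unfold fa ff
  rw [two_smul, inverse_eq a ha, cfc_add a _ _ c1 c1,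
    cfc_mul (fun t : ℝ => t) (fun t : ℝ => (1 + t * t)⁻¹) a (by fun_prop) cont_inv.continuousOn,
    cfc_id' ℝ a]

lemma abs_ff_le (t : ℝ) : |ff t| ≤ 1 := by
  have h : 0 < 1 + t * t := by nlinarith [mul_self_nonneg t]
  have h1 : ff t = 2 * t / (1 + t * t) := by
    unfold ff
    field_simp
    ring
  rw [h1, abs_div, abs_of_pos h, div_le_one h, abs_le]
  constructor <;> nlinarith [mul_self_nonneg (t - 1), mul_self_nonneg (t + 1)]

lemma fa_sa (a : H →L[ℂ] H) (ha : IsSelfAdjoint a) : IsSelfAdjoint (fa a) := by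
  rw [fa_eq a ha]
  exact cfc_predicate _ _

lemma norm_fa (a : H →L[ℂ] H) (ha : IsSelfAdjoint a) : ‖fa a‖ ≤ 1 := by
  rw [fa_eq a ha]
  apply norm_cfc_le zero_le_one
  intro t _
  exact abs_ff_le t

lemma ff_g (t : ℝ) (ht : |t| ≤ 1) : ff (t / (1 + Real.sqrt (1 - t * t))) = t := by
  have h0 : 0 ≤ 1 - t * t := by
    have := abs_le.1 ht
    nlinarith [this.1, this.2]
  set s := Real.sqrt (1 - t * t) with hs
  have hs0 : 0 ≤ s := Real.sqrt_nonneg _
  have hss : s * s = 1 - t * t := Real.mul_self_sqrt h0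
  have h1 : 1 + s ≠ 0 := by positivity
  have h2 : 1 + t / (1 + s) * (t / (1 + s)) = 2 / (1 + s) := by
    field_simp
    nlinarith
  unfold ff
  rw [h2, inv_div]
  field_simp
  ring

theorem t_ca : S_CA := by
  intro H _ _ _
  refine ⟨fun a ha => ⟨isUnit1 a ha, norm_inverse a ha, fa_sa a ha, norm_fa a ha⟩, ?_⟩
  intro y hy hn
  have hy' : IsSelfAdjoint y := hy
  let g : ℝ → ℝ := fun t => t / (1 + Real.sqrt (1 - t * t))
  have hg : Continuous g := by
    apply Continuous.div continuous_id (by fun_prop)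
    intro t
    have := Real.sqrt_nonneg (1 - t * t)
    positivity
  have hz : IsSelfAdjoint (cfc g y) := cfc_predicate _ _
  refine ⟨cfc g y, hz, ?_, ?_⟩
  · rw [fa_eq _ hz, ← cfc_comp' ff g y cont_ff.continuousOn hg.continuousOn hy']
    have h1 : cfc (fun t => ff (g t)) y = cfc (fun t : ℝ => t) y := by
      apply cfc_congr
      intro t ht
      apply ff_g
      have h2 := spectrum.norm_le_norm_mul_of_mem ht
      have h3 : ‖(1 : H →L[ℂ] H)‖ ≤ 1 := ContinuousLinearMap.norm_id_le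
      calc |t| ≤ ‖y‖ * ‖(1 : H →L[ℂ] H)‖ := h2
        _ ≤ 1 * 1 := mul_le_mul hn h3 (norm_nonneg _) zero_le_one
        _ = 1 := one_mul _
    rw [h1, cfc_id' ℝ y]
  · intro t ht
    have h1 : Commute y t := ht.symm
    exact (h1.cfc_real g).symm

lemma inv_comm (a : H →L[ℂ] H) (ha : IsSelfAdjoint a) :
    a * Ring.inverse (1 + a * a) = Ring.inverse (1 + a * a) * a := by
  have h1 : Ring.inverse (1 + a * a) * (1 + a * a) = 1 := Ring.inverse_mul_cancel _ (isUnit1 a ha)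
  have h2 : (1 + a * a) * Ring.inverse (1 + a * a) = 1 := Ring.mul_inverse_cancel _ (isUnit1 a ha)
  calc a * Ring.inverse (1 + a * a) =
      (Ring.inverse (1 + a * a) * (1 + a * a)) * a * Ring.inverse (1 + a * a) := by
        rw [h1, one_mul]
    _ = Ring.inverse (1 + a * a) * a * ((1 + a * a) * Ring.inverse (1 + a * a)) := by
        noncomm_ring
    _ = Ring.inverse (1 + a * a) * a := by rw [h2, mul_one]

end

theorem t_cb : S_CB := by
  intro H _ _ _ a z v ha hz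
  have ha' : IsSelfAdjoint a := ha
  have hz' : IsSelfAdjoint z := hz
  set A := Ring.inverse (1 + a * a) with hA
  set Z := Ring.inverse (1 + z * z) with hZ
  have h1 : A * (1 + a * a) = 1 := Ring.inverse_mul_cancel _ (isUnit1 a ha')
  have h2 : (1 + z * z) * Z = 1 := Ring.mul_inverse_cancel _ (isUnit1 z hz')
  have hc : a * A = A * a := inv_comm a ha'
  have e1 : a * A - z * Z = A * (a - z) * Z - A * a * (a - z) * (z * Z) := by
    calc a * A - z * Z = A * a * ((1 + z * z) * Z) - (A * (1 + a * a)) * z * Z := by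
          rw [h1, h2, mul_one, one_mul, hc]
      _ = A * (a - z) * Z - A * a * (a - z) * (z * Z) := by noncomm_ring
  have e2 : fa a - fa z = (2 : ℂ) • (A * (a - z) * Z) - (1 / 2 : ℂ) • (fa a * (a - z) * fa z) := by
    have f1 : fa a = (2 : ℂ) • (A * a) := by rw [← hc]; rfl
    have f2 : fa z = (2 : ℂ) • (z * Z) := rfl
    have f3 : fa a - fa z = (2 : ℂ) • (a * A - z * Z) := by rw [smul_sub]; rfl
    have f4 : fa a * (a - z) * fa z = (4 : ℂ) • (A * a * (a - z) * (z * Z)) := by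
      rw [f1, f2, smul_mul_assoc, smul_mul_assoc, mul_smul_comm, smul_smul]
      norm_num
    rw [f3, e1, f4, smul_sub, smul_smul]
    norm_num
  rw [e2]
  have n1 : ‖((2 : ℂ) • (A * (a - z) * Z)) v‖ ≤ 2 * ‖(a - z) (Z v)‖ := by
    change ‖(2 : ℂ) • A ((a - z) (Z v))‖ ≤ _
    rw [norm_smul]
    have := A.le_opNorm ((a - z) (Z v))
    have hA1 : ‖A‖ ≤ 1 := norm_inverse a ha'
    have h3 : ‖A ((a - z) (Z v))‖ ≤ ‖(a - z) (Z v)‖ := by
      refine this.trans ?_
      exact mul_le_of_le_one_left (norm_nonneg _) hA1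
    have h4 : ‖(2 : ℂ)‖ = 2 := by norm_num
    rw [h4]
    linarith
  have n2 : ‖((1 / 2 : ℂ) • (fa a * (a - z) * fa z)) v‖ ≤ ‖(a - z) (fa z v)‖ := by
    change ‖(1 / 2 : ℂ) • (fa a) ((a - z) (fa z v))‖ ≤ _
    rw [norm_smul]
    have := (fa a).le_opNorm ((a - z) (fa z v))
    have hA1 : ‖fa a‖ ≤ 1 := norm_fa a ha'
    have h3 : ‖fa a ((a - z) (fa z v))‖ ≤ ‖(a - z) (fa z v)‖ := by
      refine this.trans ?_
      exact mul_le_of_le_one_left (norm_nonneg _) hA1
    have h4 : ‖(1 / 2 : ℂ)‖ = 1 / 2 := by norm_num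
    rw [h4]
    linarith [norm_nonneg (fa a ((a - z) (fa z v)))]
  rw [sub_apply]
  exact (norm_sub_le _ _).trans (add_le_add n1 n2)

end Pool.Agent.N896.QWP
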